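import Mathlib
import Pool.Agent.Helper292.ForceCH
import Pool.Agent.N483.Fan.Embed
import Pool.Agent.N483.Fan.Reduction
import Pool.Agent.N483.Fan.CH

set_option autoImplicit false

open Set Filter Topology Cardinal
open Pool.Agent.N483.Fan
open Pool.Agent.Helper292.ForceCH (OmegaOnePreserved CHHolds exists_forcing)

/-- The continuum hypothesis can be forced; it implies `𝔡 ≤ 𝔯`; if `𝔡 ≤ 𝔯` then the sequential
fan embeds in `C_p(X)` for a Menger subspace `X` of the Cantor set; and whenever the fan embeds in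
`C_p(X)` for a Menger space `X`, it embeds in `C_p(Z)` for a continuous image `Z` of `X`, which is
a Menger subspace of the countable power of the line, some finite power of which is not
Menger. -/
theorem Pool.Agent.Results.MP_b8a914_gt.FanInMenger.result :
    (∃ (P : Type) (_ : Preorder P), Nonempty P ∧
      ∀ p : P, p ∈ OmegaOnePreserved P ∧ p ∈ CHHolds P) ∧
    ((ℵ₁ : Cardinal.{0}) = 𝔠 → dNumber ≤ rNumber) ∧
    (dNumber ≤ rNumber → ∃ X : Set (ℕ → Bool), Menger X ∧
      ∃ f : SeqFan → Cp X, IsEmbedding f) ∧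
    (∀ (X : Type) [TopologicalSpace X] [T35Space X], Menger X →
      (∃ f : SeqFan → Cp X, IsEmbedding f) →
      ∃ Z : Set (ℕ → ℝ), (∃ φ : X → Z, Continuous φ ∧ Function.Surjective φ) ∧ Menger Z ∧
        (∃ g : SeqFan → Cp Z, IsEmbedding g) ∧ ∃ N : ℕ, ¬ Menger (Fin N → Z)) := by
  refine ⟨?_, dNumber_le_rNumber_of_CH, fun h => ?_, fun X _ _ hX ⟨f, hf⟩ => reduction hX f hf⟩
  · obtain ⟨P, hP, hne, h⟩ := exists_forcing
    exact ⟨P, hP, hne, fun p => ⟨(h p).1, (h p).2.2⟩⟩
  · obtain ⟨X, h1, h2, h3, h4⟩ := exists_space h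
    exact ⟨X, h1, emb X, isEmbedding_emb h2 h3 h4⟩
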